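import Pool.Agent.Helper53.Sep.Final

/-!
Winning positions, the step at a single target point, the hyperbola region, and the
line property with its star lemma.
-/

namespace Pool.Agent.Helper32.SepL

open Pool.Agent.Helper53.Sep Finset

/-- winning positions with `j` trees, in units of `τ` -/
def W (r j : ℕ) (t τ x y : ℝ) : Prop := Win r j t (x * τ) (y * τ)

lemma wins_W (r j : ℕ) (t τ : ℝ) : Wins r j t τ (W r j t τ) := fun _ _ h => h

lemma W.mono {r j : ℕ} {t τ x y x' y' : ℝ} (hτ : 0 < τ) (h : W r j t τ x y) (hx : x ≤ x')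
    (hy : y ≤ y') : W r j t τ x' y' :=
  Win.mono h (mul_le_mul_of_nonneg_right hx hτ.le) (mul_le_mul_of_nonneg_right hy hτ.le)

lemma W.symm {r j : ℕ} {t τ x y : ℝ} (h : W r j t τ x y) : W r j t τ y x := Win.symm h

lemma up_W {r j : ℕ} {t τ : ℝ} (hτ : 0 < τ) : Up (W r j t τ) :=
  fun _ _ _ _ h hx hy => W.mono hτ h hx hy

/-- The step at one target point `(x, y)`. -/
theorem point_step {r j : ℕ} {t τ x y : ℝ} (hτ : 0 < τ) (hx : 1 ≤ x) (hy : 1 ≤ y) (P0 : ℝ)
    (hd : ∀ a b p s, x ≤ a → y ≤ b → P0 ≤ p → P0 ≤ a - p → 0 ≤ s → s ≤ b →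
      ¬ Fails (W r j t τ) a b p s)
    (hs : ∀ (ι : Type) (I : Finset ι) (P S : ι → ℝ) (a b : ℝ), x ≤ a → y ≤ b → I.card ≤ r →
      (∀ i ∈ I, 0 ≤ P i) → (∀ i ∈ I, 0 ≤ S i) → ∑ i ∈ I, P i = a → ∑ i ∈ I, S i = b →
      (∀ i ∈ I, P i < P0) → (∀ i ∈ I, ¬ W r j t τ (a - P i) (S i)) → False) :
    W r (j + 1) t (τ + 1) x y := by
  have key := step (r := r) (j := j) (t := t) (τ := τ) hτ (C := W r j t τ)
    (C' := fun a b => x ≤ a ∧ y ≤ b) (L := fun p _ => p < P0) (wins_W r j t τ) (up_W hτ)
    (fun a b a' b' h ha hb => ⟨h.1.trans ha, h.2.trans hb⟩)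
    (fun a b h => ⟨hx.trans h.1, hy.trans h.2⟩) ?_ ?_
  · exact key x y ⟨le_rfl, le_rfl⟩
  · rintro a b p s ⟨ha, hb⟩ hp0 hpa hs0 hsb hf
    by_contra hc
    push Not at hc
    exact hd a b p s ha hb hc.1 hc.2 hs0 hsb hf
  · rintro ι I P S a b ⟨ha, hb⟩ hcard hP hS hsP hsS hL hF
    exact hs ι I P S a b ha hb hcard hP hS hsP hsS hL (fun i hi => (hF i hi).2)

lemma sum_le_card {ι : Type} {I : Finset ι} {f : ι → ℝ} {B : ℝ} {r : ℕ} (hI : I.card ≤ r)
    (hB : 0 ≤ B) (h : ∀ i ∈ I, f i ≤ B) : ∑ i ∈ I, f i ≤ r * B := by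
  calc ∑ i ∈ I, f i ≤ ∑ _i ∈ I, B := Finset.sum_le_sum h
    _ = I.card * B := by rw [sum_const, nsmul_eq_mul]
    _ ≤ r * B := by
      apply mul_le_mul_of_nonneg_right _ hB
      exact_mod_cast hI

/-- one half of the generic step -/
lemma generic_half {r j : ℕ} {t τ c w Q : ℝ} (hτ : 0 < τ) (hr : 4 ≤ (r : ℝ))
    (hc : c * ((r : ℝ) - 1) = (r : ℝ) ^ 2) (hw : 1 ≤ w) (hQ : (r : ℝ) * w ^ 2 ≤ Q)
    (h : ∀ x y, w ≤ x → w ≤ y → Q ≤ x * y → W r j t τ x y) {x y : ℝ} (hx : 2 * w ≤ x)
    (hxy : x ≤ y) (hp : (1 + 1 / (r : ℝ)) * c * Q ≤ x * y) : W r (j + 1) t (τ + 1) x y := by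
  have hr0 : (0 : ℝ) < r := by linarith
  have hr1 : (0 : ℝ) < (r : ℝ) - 1 := by linarith
  have hw0 : 0 < w := by linarith
  have hx0 : 0 < x := by linarith
  have hy0 : 0 < y := by linarith
  have hQ0 : 0 < Q := lt_of_lt_of_le (by positivity) hQ
  have hcr : (r : ℝ) + 1 ≤ c := by nlinarith
  have hc0 : 0 < c := by linarith
  have hc4 : 4 ≤ c := by linarith
  have hQc : c * Q ≤ x * y := by
    have h1 : c * Q ≤ (1 + 1 / (r : ℝ)) * c * Q := by
      have h2 : (0 : ℝ) ≤ 1 / r := by positivity
      have h3 : 0 ≤ c * Q := by positivity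
      nlinarith
    linarith
  have hrc : (r : ℝ) + 2 ≤ (1 + 1 / (r : ℝ)) * c := by
    have h1 : ((r : ℝ) + 2) * (r * (r - 1)) ≤ (1 + 1 / (r : ℝ)) * c * (r * (r - 1)) := by
      have h2 : (1 + 1 / (r : ℝ)) * c * (r * (r - 1)) = (r + 1) * (c * (r - 1)) := by
        field_simp
      rw [h2, hc]
      nlinarith
    exact le_of_mul_le_mul_right h1 (by positivity)
  set P0 := max w (x / r) with hP0
  have hwP : w ≤ P0 := le_max_left _ _
  have hxP : x / r ≤ P0 := le_max_right _ _
  have hPx : P0 ≤ x / 2 := by
    apply max_le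
    · linarith
    · apply div_le_div_of_nonneg_left hx0.le (by norm_num)
      linarith
  have hP00 : 0 < P0 := by linarith
  -- value of a failing edge
  have hval : ∀ z v, P0 ≤ z → ¬ W r j t τ z v → v < w ∨ v < Q / z := by
    intro z v hz hnW
    by_contra hcon
    push Not at hcon
    apply hnW
    apply h z v (by linarith) hcon.1
    have hz0 : 0 < z := by linarith
    have := hcon.2
    rw [div_le_iff₀ hz0] at this
    linarith
  refine point_step hτ (by linarith) (by linarith) P0 ?_ ?_
  · -- no failing balanced edge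
    have main : ∀ a b p q, x ≤ a → y ≤ b → P0 ≤ p → p ≤ q → p + q = a → ∀ v v', v + v' = b →
        ¬ W r j t τ p v → ¬ W r j t τ q v' → False := by
      intro a b p q ha hb hp0 hpq hpqa v v' hvv h1 h2
      have hq0 : P0 ≤ q := hp0.trans hpq
      have hp00 : 0 < p := by linarith
      have hq00 : 0 < q := by linarith
      have hrp : x / r ≤ p := hxP.trans hp0
      have hrp' : x ≤ r * p := by
        rw [div_le_iff₀ hr0] at hrp; linarith
      -- reciprocal bound
      have hinv : Q / p + Q / q ≤ c * Q / x := by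
        have hle : (p + q) * x ≤ c * (p * q) := by
          rcases le_total p (x / 2) with hp2 | hp2
          · have hq1 : x - p ≤ q := by linarith
            have e1 : x ^ 2 ≤ c * (p * (x - p)) := by
              have : x ^ 2 * (r - 1) ≤ c * (p * (x - p)) * (r - 1) := by
                have e2 : c * (p * (x - p)) * (r - 1) = (r : ℝ) ^ 2 * (p * (x - p)) := by
                  rw [← hc]; ring
                rw [e2]
                have e3 : 0 ≤ (r * p - x) * ((r - 1) * x - r * p) := by
                  apply mul_nonneg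
                  · linarith
                  · nlinarith
                nlinarith
              exact le_of_mul_le_mul_right this hr1
            have e4 : x ≤ c * p := by nlinarith
            nlinarith
          · have e1 : (p + q) * x ≤ (2 * q) * (2 * p) := by
              apply mul_le_mul <;> linarith
            have e2 : 4 * (p * q) ≤ c * (p * q) :=
              mul_le_mul_of_nonneg_right hc4 (by positivity)
            linarith
        rw [div_add_div _ _ hp00.ne' hq00.ne', div_le_div_iff₀ (by positivity) hx0]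
        nlinarith
      have hinv' : Q / p + Q / q ≤ y := by
        refine hinv.trans ?_
        rw [div_le_iff₀ hx0]; linarith
      have hQp : w + Q / p ≤ y := by
        rcases le_total w (x / r) with hwx | hwx
        · have e1 : Q / p ≤ Q * r / x := by
            rw [div_le_div_iff₀ hp00 hx0]; nlinarith
          have e2 : Q * r / x ≤ y * (r - 1) / r := by
            rw [div_le_div_iff₀ hx0 hr0]
            have : Q * (c * (r - 1)) ≤ y * x * (r - 1) := by nlinarith
            rw [hc] at this
            nlinarith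
          have e3 : w ≤ y / r := hwx.trans (by gcongr)
          have e4 : y / r + y * (r - 1) / r = y := by field_simp; ring
          linarith
        · have hxrw : x ≤ r * w := by
            rw [div_le_iff₀ hr0] at hwx; linarith
          have e1 : Q / p ≤ Q / w := by
            apply div_le_div_of_nonneg_left hQ0.le hw0
            linarith
          have e2 : w + Q / w ≤ y := by
            have e3 : (w + Q / w) * (w * (r * w)) ≤ y * (w * (r * w)) := by
              have e4 : (w + Q / w) * (w * (r * w)) = (w ^ 2 + Q) * (r * w) := by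
                field_simp
              rw [e4]
              have e5 : c * Q ≤ (r * w) * y := by
                have : x * y ≤ (r * w) * y := mul_le_mul_of_nonneg_right hxrw hy0.le
                linarith
              have e6 : (w ^ 2 + Q) * r ≤ c * Q := by nlinarith
              have e7 : (w ^ 2 + Q) * (r * w) = ((w ^ 2 + Q) * r) * w := by ring
              have e8 : y * (w * (r * w)) = (r * w * y) * w := by ring
              rw [e7, e8]
              apply mul_le_mul_of_nonneg_right _ hw0.le
              linarith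
            exact le_of_mul_le_mul_right e3 (by positivity)
          linarith
      have hQq : Q / q ≤ Q / p := div_le_div_of_nonneg_left hQ0.le hp00 hpq
      rcases hval p v hp0 h1 with g1 | g1 <;> rcases hval q v' hq0 h2 with g2 | g2 <;> linarith
    intro a b p s ha hb hp0 hap hs0 hsb hf
    rcases le_total p (a - p) with hpa | hpa
    · exact main a b p (a - p) ha hb hp0 hpa (by ring) (b - s) s (by ring) hf.1 hf.2
    · exact main a b (a - p) p ha hb hap hpa (by ring) s (b - s) (by ring) hf.2 hf.1
  · -- the star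
    intro ι I P S a b ha hb hcard hPn hSn hsP hsS hL hF
    have hIne : I.Nonempty := by
      rw [Finset.nonempty_iff_ne_empty]
      intro he
      rw [he] at hsP
      simp only [sum_empty] at hsP
      linarith
    rcases le_total (r * w) x with hwx | hwx
    · -- far zone: the sum of the `P i` is too small
      have hP0' : P0 = x / r := by
        apply max_eq_right
        rw [le_div_iff₀ hr0]; linarith
      have h1 : ∑ i ∈ I, P i < ∑ _i ∈ I, P0 := Finset.sum_lt_sum_of_nonempty hIne hL
      rw [sum_const, nsmul_eq_mul, hsP] at h1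
      have h2 : (I.card : ℝ) * P0 ≤ r * P0 := by
        apply mul_le_mul_of_nonneg_right _ hP00.le
        exact_mod_cast hcard
      have h3 : (r : ℝ) * P0 = x := by rw [hP0']; field_simp
      linarith
    · -- near the wall
      have hP0' : P0 = w := by
        apply max_eq_left
        rw [div_le_iff₀ hr0]; linarith
      rw [hP0'] at hL
      have harw : a ≤ r * w := by
        rw [← hsP]
        exact sum_le_card hcard hw0.le (fun i hi => (hL i hi).le)
      have ha0 : 0 < a := by linarith
      have haw : 0 < a - w := by linarith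
      have hSb : ∀ i ∈ I, S i < Q / a + P i * (Q / (a * (a - w))) := by
        intro i hi
        have hPi := hPn i hi
        have hPw := hL i hi
        have haP : 0 < a - P i := by linarith
        have e1 : S i < Q / (a - P i) := by
          by_contra hcon
          push Not at hcon
          apply hF i hi
          rw [div_le_iff₀ haP] at hcon
          have e2 : w ≤ S i := by
            by_contra h3
            push Not at h3
            nlinarith
          exact h _ _ (by linarith) e2 (by linarith)
        have e3 : Q / (a - P i) ≤ Q / a + P i * (Q / (a * (a - w))) := by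
          have e4 : Q / a + P i * (Q / (a * (a - w))) = Q * ((a - w) + P i) / (a * (a - w)) := by
            field_simp
          rw [e4, div_le_div_iff₀ haP (by positivity)]
          have e5 : a * (a - w) ≤ ((a - w) + P i) * (a - P i) := by nlinarith
          nlinarith
        linarith
      have hsum : b < r * (Q / a) + a * (Q / (a * (a - w))) := by
        rw [← hsS]
        calc ∑ i ∈ I, S i < ∑ i ∈ I, (Q / a + P i * (Q / (a * (a - w)))) :=
              Finset.sum_lt_sum_of_nonempty hIne hSb
          _ = ∑ _i ∈ I, Q / a + (∑ i ∈ I, P i) * (Q / (a * (a - w))) := by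
            rw [Finset.sum_add_distrib, Finset.sum_mul]
          _ ≤ r * (Q / a) + a * (Q / (a * (a - w))) := by
            rw [hsP]
            have := sum_le_card (I := I) (f := fun _ => Q / a) hcard (by positivity)
              (fun _ _ => le_rfl)
            linarith
      have e1 : a * (Q / (a * (a - w))) = Q / (a - w) := by field_simp
      have e2 : Q / (a - w) ≤ 2 * Q / x := by
        rw [div_le_div_iff₀ haw hx0]
        nlinarith
      have e3 : r * (Q / a) ≤ r * Q / x := by
        rw [← mul_div_assoc, div_le_div_iff₀ ha0 hx0]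
        have : 0 < r * Q := by positivity
        nlinarith
      have e4 : r * Q / x + 2 * Q / x ≤ y := by
        rw [← add_div, div_le_iff₀ hx0]
        nlinarith
      rw [e1] at hsum
      linarith

/-- the generic step: the region `x, y ≥ w`, `x y ≥ Q` -/
theorem generic_step {r j : ℕ} {t τ c w Q : ℝ} (hτ : 0 < τ) (hr : 4 ≤ (r : ℝ))
    (hc : c * ((r : ℝ) - 1) = (r : ℝ) ^ 2) (hw : 1 ≤ w) (hQ : (r : ℝ) * w ^ 2 ≤ Q)
    (h : ∀ x y, w ≤ x → w ≤ y → Q ≤ x * y → W r j t τ x y) {x y : ℝ} (hx : 2 * w ≤ x)
    (hy : 2 * w ≤ y) (hp : (1 + 1 / (r : ℝ)) * c * Q ≤ x * y) :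
    W r (j + 1) t (τ + 1) x y := by
  rcases le_total x y with hxy | hxy
  · exact generic_half hτ hr hc hw hQ h hx hxy hp
  · exact (generic_half hτ hr hc hw hQ h hy hxy (by rw [mul_comm y x]; exact hp)).symm

/-- Line property: the positions above the line through `(X1, X2)` of relative slope `-1`,
with relative coordinates at least `z`. -/
def LineP (r j : ℕ) (t τ X1 X2 z : ℝ) : Prop :=
  ∀ x y, z * X1 ≤ x → z * X2 ≤ y → 2 ≤ x / X1 + y / X2 → W r j t τ x y

lemma LineP.swap {r j : ℕ} {t τ X1 X2 z : ℝ} (h : LineP r j t τ X1 X2 z) :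
    LineP r j t τ X2 X1 z := by
  intro x y hx hy hxy
  exact (h y x hy hx (by linarith)).symm

/-- sums of positive parts -/
lemma sum_pos_part {ι : Type} (I : Finset ι) (f : ι → ℝ) {A d : ℝ} (hf : ∀ i ∈ I, 0 ≤ f i)
    (hsum : ∑ i ∈ I, f i = A) (hd : 0 ≤ d) (hdA : d ≤ A) :
    ∑ i ∈ I, max 0 (f i - d) ≤ A - d := by
  classical
  by_cases hex : ∃ i ∈ I, d < f i
  · obtain ⟨i, hi, hdi⟩ := hex
    rw [← Finset.add_sum_erase I _ hi] at hsum ⊢
    have h1 : max 0 (f i - d) = f i - d := max_eq_right (by linarith)
    have h2 : ∑ j ∈ I.erase i, max 0 (f j - d) ≤ ∑ j ∈ I.erase i, f j := by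
      apply Finset.sum_le_sum
      intro j hj
      apply max_le
      · exact hf j (Finset.mem_of_mem_erase hj)
      · linarith
    linarith
  · push Not at hex
    have h1 : ∑ i ∈ I, max 0 (f i - d) = 0 := by
      apply Finset.sum_eq_zero
      intro i hi
      exact max_eq_left (by linarith [hex i hi])
    linarith

/-- The star lemma for the line property. -/
theorem line_star {r j : ℕ} {t τ X1 X2 z A0 P0 : ℝ} (hX1 : 0 < X1) (hX2 : 0 < X2)
    (hL : LineP r j t τ X1 X2 z) (hz : 0 ≤ z) (hA0 : 0 < A0) (hA : A0 ≤ 2 - z)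
    (hP0 : P0 ≤ (A0 - z) * X1) {ι : Type} (I : Finset ι) (P S : ι → ℝ) {a b : ℝ}
    (ha : A0 * X1 ≤ a) (hb : X2 * (2 * r - (r - 1) * A0) ≤ b) (hcard : I.card ≤ r)
    (hr : (1 : ℝ) ≤ r)
    (hPn : ∀ i ∈ I, 0 ≤ P i) (hsP : ∑ i ∈ I, P i = a) (hsS : ∑ i ∈ I, S i = b)
    (hlt : ∀ i ∈ I, P i < P0) (hF : ∀ i ∈ I, ¬ W r j t τ (a - P i) (S i)) : False := by
  have ha0 : 0 < a := lt_of_lt_of_le (by positivity) ha
  have hIne : I.Nonempty := by
    rw [Finset.nonempty_iff_ne_empty]
    intro he
    rw [he] at hsP
    simp only [sum_empty] at hsP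
    linarith
  set A := a / X1 with hAdef
  have haA : a = A * X1 := by rw [hAdef]; field_simp
  have hA0A : A0 ≤ A := by
    rw [hAdef, le_div_iff₀ hX1]; exact ha
  set B := min A (2 - z) with hB
  have hBA : B ≤ A := min_le_left _ _
  have hBz : B ≤ 2 - z := min_le_right _ _
  have hA0B : A0 ≤ B := le_min hA0A hA
  have hB2 : 0 ≤ 2 - B := by linarith
  have hS : ∀ i ∈ I, S i < X2 * ((2 - B) + max 0 (P i / X1 - (A - B))) := by
    intro i hi
    by_contra hcon
    push Not at hcon
    apply hF i hi
    have hm0 : 0 ≤ max 0 (P i / X1 - (A - B)) := le_max_left _ _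
    have hm1 : P i / X1 - (A - B) ≤ max 0 (P i / X1 - (A - B)) := le_max_right _ _
    have hSX : (2 - B) + max 0 (P i / X1 - (A - B)) ≤ S i / X2 := by
      rw [le_div_iff₀ hX2]; linarith
    apply hL
    · have h1 := hlt i hi
      have h2 : A0 * X1 ≤ a := ha
      nlinarith
    · have : z ≤ S i / X2 := by linarith
      rw [le_div_iff₀ hX2] at this
      exact this
    · have h1 : (a - P i) / X1 = A - P i / X1 := by rw [hAdef, sub_div]
      rw [h1]
      linarith
  have hsum : b < X2 * (r * (2 - B) + B) := by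
    rw [← hsS]
    have h1 : ∑ i ∈ I, max 0 (P i / X1 - (A - B)) ≤ A - (A - B) := by
      apply sum_pos_part I (fun i => P i / X1)
      · intro i hi
        exact div_nonneg (hPn i hi) hX1.le
      · rw [← Finset.sum_div, hsP]
      · linarith
      · linarith
    calc ∑ i ∈ I, S i < ∑ i ∈ I, X2 * ((2 - B) + max 0 (P i / X1 - (A - B))) :=
          Finset.sum_lt_sum_of_nonempty hIne hS
      _ = X2 * (∑ _i ∈ I, (2 - B) + ∑ i ∈ I, max 0 (P i / X1 - (A - B))) := by
          rw [← Finset.mul_sum, Finset.sum_add_distrib]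
      _ ≤ X2 * (r * (2 - B) + B) := by
          apply mul_le_mul_of_nonneg_left _ hX2.le
          have h2 := sum_le_card (I := I) (f := fun _ => 2 - B) hcard hB2 (fun _ _ => le_rfl)
          linarith
  have h3 : r * (2 - B) + B ≤ 2 * r - (r - 1) * A0 := by
    have : ((r : ℝ) - 1) * A0 ≤ (r - 1) * B := mul_le_mul_of_nonneg_left hA0B (by linarith)
    linarith
  have h4 := mul_le_mul_of_nonneg_left h3 hX2.le
  linarith

end Pool.Agent.Helper32.SepL
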