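import Pool.Agent.Helper32.SepL.Steps

/-!
The chains of line properties.
-/

namespace Pool.Agent.Helper32.SepL

open Pool.Agent.Helper53.Sep Finset

/-- parameters -/
structure Pm (r : ℕ) (c β : ℝ) : Prop where
  hr : (20 : ℝ) ≤ r
  hc : c * ((r : ℝ) - 1) = (r : ℝ) ^ 2
  hβ : β * ((r : ℝ) - 1) = r

namespace Pm

variable {r : ℕ} {c β : ℝ} (P : Pm r c β)
include P

lemma rpos : (0 : ℝ) < r := by linarith [P.hr]

lemma r1 : (0 : ℝ) < (r : ℝ) - 1 := by linarith [P.hr]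

lemma c_eq : c = β * r := by
  have h1 := P.r1
  have h2 : c * ((r : ℝ) - 1) = (β * r) * (r - 1) := by
    rw [P.hc]
    calc (r : ℝ) ^ 2 = r * r := by ring
      _ = (β * (r - 1)) * r := by rw [P.hβ]
      _ = (β * r) * (r - 1) := by ring
  exact mul_right_cancel₀ h1.ne' h2

lemma c_ge : (r : ℝ) ≤ c := by
  have h1 := P.r1
  have h2 := P.hc
  have h3 := P.hr
  have : (r : ℝ) * (r - 1) ≤ c * (r - 1) := by rw [h2]; nlinarith
  exact le_of_mul_le_mul_right this h1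

lemma c4 : 4 ≤ c := by linarith [P.c_ge, P.hr]

lemma cpow (i : ℕ) : (4 : ℝ) ^ i ≤ c ^ i := pow_le_pow_left₀ (by norm_num) P.c4 i

lemma cpos (i : ℕ) : 0 < c ^ i := pow_pos (by linarith [P.c4]) i

lemma one_le_cpow (i : ℕ) : 1 ≤ c ^ i := one_le_pow₀ (by linarith [P.c4])

end Pm

/-- the constant of the hyperbola region at level `j + 1` -/
noncomputable def Qc (r : ℕ) (c : ℝ) (j : ℕ) : ℝ :=
  (1 + 1 / (r : ℝ)) ^ j * (((r : ℝ) - 1) * c ^ (j + 1))

lemma Qc_lower {r : ℕ} {c β : ℝ} (P : Pm r c β) (j : ℕ) :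
    (r : ℝ) * ((2 : ℝ) ^ (j + 1)) ^ 2 ≤ Qc r c j := by
  have h1 := P.r1
  have h0 := P.rpos
  have h2 : (r : ℝ) * ((2 : ℝ) ^ (j + 1)) ^ 2 = 4 * r * 4 ^ j := by
    rw [← pow_mul, mul_comm (j + 1) 2, pow_mul]; norm_num; ring
  have h3 : ((r : ℝ) - 1) * c ^ (j + 1) = r ^ 2 * c ^ j := by
    rw [← P.hc]; ring
  have h4 : (1 : ℝ) ≤ (1 + 1 / (r : ℝ)) ^ j := by
    apply one_le_pow₀
    have : (0 : ℝ) ≤ 1 / r := by positivity
    linarith
  have h5 := P.cpow j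
  have h6 := P.hr
  have h7 : 4 * (r : ℝ) * 4 ^ j ≤ r ^ 2 * c ^ j := by
    apply mul_le_mul _ h5 (by positivity) (by positivity)
    nlinarith
  have h8 : (r : ℝ) ^ 2 * c ^ j ≤ (1 + 1 / (r : ℝ)) ^ j * (r ^ 2 * c ^ j) := by
    have := P.cpos j
    have h9 : 0 ≤ (r : ℝ) ^ 2 * c ^ j := by positivity
    nlinarith
  rw [h2, Qc, h3]
  linarith

lemma pow_bound {r : ℕ} (hr : (1 : ℝ) < r) {j : ℕ} (hj : 4 * (j : ℝ) ≤ r) :
    (1 + 1 / (r : ℝ)) ^ j ≤ 4 / 3 := by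
  have h0 : (0 : ℝ) < r := by linarith
  have h1 : (1 : ℝ) / r ≤ 1 := by
    rw [div_le_one h0]; linarith
  have h2 := one_add_mul_le_pow (a := -(1 / (r : ℝ))) (by linarith) j
  have h3 : (3 : ℝ) / 4 ≤ (1 + -(1 / (r : ℝ))) ^ j := by
    refine le_trans ?_ h2
    have : (j : ℝ) * (1 / r) ≤ 1 / 4 := by
      rw [mul_one_div, div_le_div_iff₀ h0 (by norm_num)]; linarith
    linarith
  have h4 : (1 + 1 / (r : ℝ)) ^ j * (1 + -(1 / (r : ℝ))) ^ j ≤ 1 := by
    rw [← mul_pow]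
    apply pow_le_one₀
    · have h5 : (0 : ℝ) ≤ 1 / r := by positivity
      nlinarith
    · have h5 : (0 : ℝ) ≤ 1 / r := by positivity
      nlinarith
  have h5 : 0 ≤ (1 + 1 / (r : ℝ)) ^ j := by positivity
  nlinarith

/-- the first level -/
lemma W_one {r : ℕ} (hr : 2 ≤ r) {t : ℝ} (ht : 0 < t) {x y : ℝ}
    (h : (2 ≤ x ∧ (r : ℝ) ≤ y) ∨ ((r : ℝ) ≤ x ∧ 2 ≤ y)) : W r 1 t (t + 1) x y :=
  wins1 hr ht (wins0 r ht) x y h

/-- the hyperbola regions -/
theorem gen {r : ℕ} {c β : ℝ} (P : Pm r c β) {t : ℝ} (ht : 0 < t) (j : ℕ) :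
    ∀ x y, (2 : ℝ) ^ (j + 1) ≤ x → (2 : ℝ) ^ (j + 1) ≤ y → Qc r c j ≤ x * y →
      W r (j + 1) t (t + (j + 1 : ℕ)) x y := by
  have hr := P.hr
  have hr2 : 2 ≤ r := by
    have : (2 : ℝ) ≤ r := by linarith
    exact_mod_cast this
  induction j with
  | zero =>
    intro x y hx hy hxy
    have hQ : Qc r c 0 = (r : ℝ) ^ 2 := by rw [Qc, ← P.hc]; ring
    rw [hQ] at hxy
    norm_num at hx hy
    have := W_one hr2 ht (x := x) (y := y) (by
      rcases le_or_gt (r : ℝ) y with h | h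
      · exact Or.inl ⟨hx, h⟩
      · rcases le_or_gt (r : ℝ) x with h' | h'
        · exact Or.inr ⟨h', hy⟩
        · exfalso; nlinarith)
    simpa using this
  | succ j ih =>
    intro x y hx hy hxy
    have hτ : 0 < t + ((j + 1 : ℕ) : ℝ) := by positivity
    have h2 : (2 : ℝ) ^ (j + 1 + 1) = 2 * 2 ^ (j + 1) := by ring
    rw [h2] at hx hy
    have hQ : Qc r c (j + 1) = (1 + 1 / (r : ℝ)) * c * Qc r c j := by
      rw [Qc, Qc]; ring
    rw [hQ] at hxy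
    have h1 : (1 : ℝ) ≤ 2 ^ (j + 1) := one_le_pow₀ (by norm_num)
    have key := generic_step hτ (by linarith) P.hc h1 (Qc_lower P j) ih hx hy hxy
    have e : t + ((j + 1 : ℕ) : ℝ) + 1 = t + ((j + 1 + 1 : ℕ) : ℝ) := by push_cast; ring
    rw [e] at key
    exact key

lemma Qc_upper {r : ℕ} {c β : ℝ} (P : Pm r c β) {j : ℕ} (hj : 4 * (j : ℝ) ≤ r) :
    Qc r c j ≤ 4 / 3 * (((r : ℝ) - 1) * c ^ (j + 1)) := by
  have h1 := pow_bound (by linarith [P.hr]) hj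
  have h2 := P.cpos (j + 1)
  have h3 := P.r1
  rw [Qc]
  exact mul_le_mul_of_nonneg_right h1 (by positivity)

lemma Qc_pos {r : ℕ} {c β : ℝ} (P : Pm r c β) (j : ℕ) : 0 < Qc r c j := by
  have := Qc_lower P j
  have h0 := P.rpos
  have : 0 < (r : ℝ) * ((2 : ℝ) ^ (j + 1)) ^ 2 := by positivity
  linarith

lemma four_pow (i : ℕ) : (2 : ℝ) ^ (2 * i + 1) = 2 * 4 ^ i := by
  rw [pow_succ, pow_mul]; norm_num; ring

lemma four_pow' (i : ℕ) : (2 : ℝ) ^ (2 * i + 1 + 1) = 4 * 4 ^ i := by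
  rw [pow_succ, four_pow]; ring

/-- The `T` chain: odd levels and even levels. -/
theorem T_chain {r : ℕ} {c β : ℝ} (P : Pm r c β) {t : ℝ} (ht : 0 < t) (i : ℕ) :
    ((4 * (2 * (i : ℝ) + 1) ≤ r) →
      LineP r (2 * i + 1) t (t + (2 * i + 1 : ℕ)) (r * c ^ i) (r * c ^ i)
        (2 * (2 * i + 1) / r)) ∧
    ((4 * (2 * (i : ℝ) + 1) ≤ r) →
      LineP r (2 * i + 2) t (t + (2 * i + 2 : ℕ)) (c ^ (i + 1)) ((r - 1) * c ^ (i + 1))
        (2 * (2 * i + 2) / r)) := by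
  have hr := P.hr
  have h0 := P.rpos
  have hr1 := P.r1
  have hr2 : 2 ≤ r := by
    have : (2 : ℝ) ≤ r := by linarith
    exact_mod_cast this
  have stepAB : ∀ i : ℕ, (4 * (2 * (i : ℝ) + 1) ≤ r) →
      LineP r (2 * i + 1) t (t + (2 * i + 1 : ℕ)) (r * c ^ i) (r * c ^ i)
        (2 * (2 * i + 1) / r) →
      LineP r (2 * i + 2) t (t + (2 * i + 2 : ℕ)) (c ^ (i + 1)) ((r - 1) * c ^ (i + 1))
        (2 * (2 * i + 2) / r) := by
    intro i hi hA
    have hci := P.cpow i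
    have hci0 := P.cpos i
    have h1 : (1 : ℝ) ≤ 2 ^ (2 * i + 1) := one_le_pow₀ (by norm_num)
    have hτ : 0 < t + ((2 * i + 1 : ℕ) : ℝ) := by positivity
    have hQ := Qc_upper P (j := 2 * i) (by push_cast; linarith)
    have hQ' : 4 / 3 * (((r : ℝ) - 1) * c ^ (2 * i + 1)) =
        4 / 3 * ((r * c ^ i) * (r * c ^ i)) := by
      have : ((r : ℝ) - 1) * c ^ (2 * i + 1) = (c * (r - 1)) * (c ^ i * c ^ i) := by
        rw [pow_succ, mul_comm 2 i, pow_mul]; ring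
      rw [this, P.hc]; ring
    rw [hQ'] at hQ
    have key := T_step hτ (by linarith) P.hβ h1 (gen P ht (2 * i)) (by positivity) (by positivity)
      (X1 := r * c ^ i) (X2 := r * c ^ i) (z := 2 * (2 * i + 1) / r)
      (by rw [four_pow]; nlinarith) (by rw [four_pow]; nlinarith) (Qc_pos P _) hQ
      (by
        rw [div_le_div_iff_of_pos_right h0]
        have : (0 : ℝ) ≤ i := by positivity
        linarith)
      (by rw [div_le_div_iff₀ h0 (by norm_num)]; linarith) hA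
    have e1 : β * (r * c ^ i) = c ^ (i + 1) := by
      rw [pow_succ]; nth_rewrite 3 [P.c_eq]; ring
    have e2 : (r : ℝ) * (r * c ^ i) = (r - 1) * c ^ (i + 1) := by
      calc (r : ℝ) * (r * c ^ i) = r ^ 2 * c ^ i := by ring
        _ = (c * (r - 1)) * c ^ i := by rw [P.hc]
        _ = (r - 1) * c ^ (i + 1) := by ring
    have e3 : 2 * (2 * (i : ℝ) + 1) / r + 2 / r = 2 * (2 * i + 2) / r := by ring
    have e4 : t + ((2 * i + 1 : ℕ) : ℝ) + 1 = t + ((2 * i + 2 : ℕ) : ℝ) := by push_cast; ring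
    rw [e1, e2, e3, e4] at key
    exact key
  have stepBA : ∀ i : ℕ, (4 * (2 * ((i + 1 : ℕ) : ℝ) + 1) ≤ r) →
      LineP r (2 * i + 2) t (t + (2 * i + 2 : ℕ)) (c ^ (i + 1)) ((r - 1) * c ^ (i + 1))
        (2 * (2 * i + 2) / r) →
      LineP r (2 * (i + 1) + 1) t (t + (2 * (i + 1) + 1 : ℕ)) (r * c ^ (i + 1)) (r * c ^ (i + 1))
        (2 * (2 * ((i + 1 : ℕ) : ℝ) + 1) / r) := by
    intro i hi hB
    push_cast at hi
    have hci := P.cpow i
    have hci0 := P.cpos i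
    have hci1 := P.cpow (i + 1)
    have hci10 := P.cpos (i + 1)
    have h41 : (4 : ℝ) ^ (i + 1) = 4 * 4 ^ i := by ring
    have hc1 : (r : ℝ) * 4 ^ i ≤ c ^ (i + 1) := by
      have e : c ^ (i + 1) = c * c ^ i := by ring
      rw [e]
      exact mul_le_mul P.c_ge hci (by positivity) (by linarith [P.c4])
    have h1 : (1 : ℝ) ≤ 2 ^ (2 * i + 1 + 1) := one_le_pow₀ (by norm_num)
    have hτ : 0 < t + ((2 * i + 1 + 1 : ℕ) : ℝ) := by positivity
    have hQ := Qc_upper P (j := 2 * i + 1) (by push_cast; linarith)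
    have hQ' : 4 / 3 * (((r : ℝ) - 1) * c ^ (2 * i + 1 + 1)) =
        4 / 3 * (((r - 1) * c ^ (i + 1)) * c ^ (i + 1)) := by
      have : (c : ℝ) ^ (2 * i + 1 + 1) = c ^ (i + 1) * c ^ (i + 1) := by
        rw [← pow_add]; congr 1; ring
      rw [this]; ring
    rw [hQ'] at hQ
    have key := T_step hτ (by linarith) P.hβ h1 (gen P ht (2 * i + 1)) (by positivity)
      (by positivity)
      (X1 := (r - 1) * c ^ (i + 1)) (X2 := c ^ (i + 1)) (z := 2 * (2 * i + 2) / r)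
      (by rw [four_pow']; nlinarith) (by rw [four_pow']; nlinarith) (Qc_pos P _) hQ
      (by
        rw [div_le_div_iff_of_pos_right h0]
        have : (0 : ℝ) ≤ i := by positivity
        linarith)
      (by rw [div_le_div_iff₀ h0 (by norm_num)]; linarith) hB.swap
    have e1 : β * ((r - 1) * c ^ (i + 1)) = r * c ^ (i + 1) := by
      calc β * ((r - 1) * c ^ (i + 1)) = (β * (r - 1)) * c ^ (i + 1) := by ring
        _ = r * c ^ (i + 1) := by rw [P.hβ]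
    have e3 : 2 * (2 * (i : ℝ) + 2) / r + 2 / r = 2 * (2 * ((i + 1 : ℕ) : ℝ) + 1) / r := by
      push_cast; ring
    have e4 : t + ((2 * i + 1 + 1 : ℕ) : ℝ) + 1 = t + ((2 * (i + 1) + 1 : ℕ) : ℝ) := by
      push_cast; ring
    rw [e1, e3, e4] at key
    exact key
  induction i with
  | zero =>
    have hA : LineP r (2 * 0 + 1) t (t + (2 * 0 + 1 : ℕ)) (r * c ^ 0) (r * c ^ 0)
        (2 * (2 * ((0 : ℕ) : ℝ) + 1) / r) := by
      intro x y hx hy hxy
      have e1 : 2 * (2 * ((0 : ℕ) : ℝ) + 1) / r * ((r : ℝ) * c ^ 0) = 2 := by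
        push_cast; field_simp; norm_num
      rw [e1] at hx hy
      rw [pow_zero, mul_one, ← add_div, le_div_iff₀ h0] at hxy
      have := W_one hr2 ht (x := x) (y := y) (by
        rcases le_or_gt (r : ℝ) y with h | h
        · exact Or.inl ⟨hx, h⟩
        · exact Or.inr ⟨by linarith, hy⟩)
      simpa using this
    exact ⟨fun _ => hA, fun h => stepAB 0 h hA⟩
  | succ i ih =>
    have hA : (4 * (2 * ((i + 1 : ℕ) : ℝ) + 1) ≤ r) →
      LineP r (2 * (i + 1) + 1) t (t + (2 * (i + 1) + 1 : ℕ)) (r * c ^ (i + 1)) (r * c ^ (i + 1))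
        (2 * (2 * ((i + 1 : ℕ) : ℝ) + 1) / r) := by
      intro h
      exact stepBA i h (ih.2 (by push_cast at h; linarith))
    exact ⟨hA, fun h => stepAB (i + 1) h (hA h)⟩

end Pool.Agent.Helper32.SepL
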