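import Pool.Agent.Helper32.SepL.VChain

/-!
`f(r,k) ≥ u(r,k)` for odd `k ≥ 5`, `r ≥ 4 k`, and for even `k ≥ 6`, `r ≥ k (k - 1)`.
-/

namespace Pool.Agent.Helper32.SepL

open Pool.Agent.Helper53.Sep Finset

/-- the concrete parameters -/
lemma pm {r : ℕ} (hr : 20 ≤ r) :
    Pm r ((r : ℝ) ^ 2 / ((r : ℝ) - 1)) ((r : ℝ) / ((r : ℝ) - 1)) := by
  have h : (20 : ℝ) ≤ r := by exact_mod_cast hr
  have h1 : (r : ℝ) - 1 ≠ 0 := by linarith
  exact ⟨h, by field_simp, by field_simp⟩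

/-- odd number of trees -/
theorem odd_pos {r : ℕ} {c β : ℝ} (P : Pm r c β) {t : ℝ} (ht : 0 < t) {m : ℕ} (hm : 1 ≤ m)
    (hmr : 4 * (2 * (m : ℝ) + 1) ≤ r) {x y : ℝ} (hx : c ^ m ≤ x) (hy : c ^ m ≤ y)
    (hxy : r * c ^ m ≤ x + y) : W r (2 * m) t (t + (2 * m : ℕ)) x y := by
  wlog hle : x ≤ y generalizing x y
  · exact (this hy hx (by linarith) (by linarith)).symm
  obtain ⟨i, rfl⟩ : ∃ i, m = i + 1 := ⟨m - 1, by omega⟩
  push_cast at hmr
  have h0 := P.rpos
  have h1 := P.r1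
  have hr := P.hr
  have hi0 : (0 : ℝ) ≤ i := by positivity
  have hD := P.cpos (i + 1)
  have hT := (T_chain P ht i).2 (by linarith)
  have hz : 2 * (2 * (i : ℝ) + 2) / r ≤ 1 / 2 := by
    rw [div_le_div_iff₀ h0 (by norm_num)]; linarith
  have e : 2 * (i + 1) = 2 * i + 2 := by ring
  rw [e]
  apply hT
  · nlinarith
  · have e1 : (r : ℝ) / 2 * c ^ (i + 1) ≤ y := by linarith
    have e2 : 2 * (2 * (i : ℝ) + 2) / r * ((r - 1) * c ^ (i + 1)) ≤
        1 / 2 * ((r - 1) * c ^ (i + 1)) := mul_le_mul_of_nonneg_right hz (by positivity)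
    nlinarith
  · have e3 : x / c ^ (i + 1) + y / ((r - 1) * c ^ (i + 1)) =
        (x * (r - 1) + y) / ((r - 1) * c ^ (i + 1)) := by field_simp
    rw [e3, le_div_iff₀ (by positivity)]
    nlinarith

/-- even number of trees -/
theorem even_pos {r : ℕ} {c β : ℝ} (P : Pm r c β) {t : ℝ} (ht : 0 < t) {m : ℕ} (hm : 1 ≤ m)
    (hmr : (2 * (m : ℝ) + 1) * (2 * m + 2) ≤ r) {x y : ℝ} (hx : 2 * c ^ m ≤ x)
    (hy : 2 * c ^ m ≤ y) (hxy : r * (2 * c ^ m) ≤ x + y) :
    W r (2 * m + 1) t (t + (2 * m + 1 : ℕ)) x y := by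
  wlog hle : x ≤ y generalizing x y
  · exact (this hy hx (by linarith) (by linarith)).symm
  obtain ⟨i, rfl⟩ : ∃ i, m = i + 1 := ⟨m - 1, by omega⟩
  push_cast at hmr
  have h0 := P.rpos
  have h1 := P.r1
  have hr := P.hr
  have hi0 : (0 : ℝ) ≤ i := by positivity
  have hD := P.cpos (i + 1)
  have hJ : (2 * (i : ℝ) + 3) * (2 * (i : ℝ) + 3 + 1) ≤ r := by linarith
  have hV := (V_chain P ht hJ i).2 le_rfl
  have hT := (T_chain P ht (i + 1)).1 (by push_cast; nlinarith)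
  have hoJ : ow r (2 * (i : ℝ) + 3) (2 * i + 3) = (2 * i + 3) / r := by
    rw [ow]; field_simp; ring
  rw [hoJ] at hV
  obtain ⟨D, hDdef⟩ : ∃ D, D = 2 * c ^ (i + 1) := ⟨_, rfl⟩
  have hD0 : 0 < D := by rw [hDdef]; positivity
  have hD2 : 2 * ((r - 1) * c ^ (i + 1)) = (r - 1) * D := by rw [hDdef]; ring
  have hD3 : (r : ℝ) * c ^ (i + 1) = r * D / 2 := by rw [hDdef]; ring
  rw [hD2, ← hDdef] at hV
  rw [hD3] at hT
  rw [← hDdef] at hx hy hxy
  have e : 2 * (i + 1) + 1 = 2 * i + 3 := by ring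
  rw [e] at hT ⊢
  set o : ℝ := (2 * i + 3) / r with ho
  have ho0 : 0 < o := by positivity
  have hor : o * r = 2 * i + 3 := by rw [ho]; field_simp
  have ho1 : o ≤ 1 / 4 := by
    rw [ho, div_le_div_iff₀ h0 (by norm_num)]; nlinarith
  rcases le_total x (2 * (2 * ((i + 1 : ℕ) : ℝ) + 1) / r * (r * D / 2)) with hc | hc
  · -- the line of `V`
    have hz : 2 * (2 * ((i + 1 : ℕ) : ℝ) + 1) / r * (r * D / 2) = (2 * i + 3) * D := by
      push_cast; field_simp; ring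
    rw [hz] at hc
    apply hV
    · nlinarith
    · have e2 : (r - 1) * D - (2 * i + 2) * D ≤ y := by linarith
      have e3 : (1 - o) * ((r - 1) * D) = (r - 1) * D - (o * r - o) * D := by ring
      rw [e3, hor]
      nlinarith
    · have e3 : x / D + y / ((r - 1) * D) = (x * (r - 1) + y) / ((r - 1) * D) := by field_simp
      rw [e3, le_div_iff₀ (by positivity)]
      nlinarith
  · -- the line of `T`
    apply hT _ _ hc (hc.trans hle)
    rw [← add_div, le_div_iff₀ (by positivity)]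
    linarith

/-- finishing lemma -/
lemma finish' {r : ℕ} (hr : (3 : ℝ) ≤ r) (j : ℕ) (hj : 1 ≤ j) {D : ℝ} (hD : 4 ≤ D)
    (hwin : ∀ t : ℝ, 0 < t → ∀ x y, D ≤ x → D ≤ y → r * D ≤ x + y →
      W r j t (t + j) x y) (n : ℕ) (T : Fin (j + 1) → LabelledTree r n) :
    (1 / (r * D)) * n - (j + 1 : ℕ) ≤ sepNumber T := by
  have h1 : (r : ℝ) - 1 ≠ 0 := by linarith
  exact finish (e := 1 / ((r : ℝ) - 1)) (c := r + 1 + 1 / ((r : ℝ) - 1))
    ⟨hr, by field_simp, rfl⟩ j hj hD (C := fun x y => D ≤ x ∧ D ≤ y ∧ r * D ≤ x + y)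
    (fun x y a b c => ⟨a, b, c⟩) (fun t ht x y h => hwin t ht x y h.1 h.2.1 h.2.2) n T

theorem lower' {r k : ℕ} (hk : 5 ≤ k) (h : (Odd k ∧ 4 * k ≤ r) ∨ k * (k - 1) ≤ r) (n : ℕ)
    (T : Fin k → LabelledTree r n) : u r k * n - k ≤ sepNumber T := by
  have hodd : Odd k → 4 * k ≤ r := by
    intro _
    rcases h with h | h
    · exact h.2
    · have : 4 * k ≤ k * (k - 1) := by
        rw [mul_comm 4 k]
        exact Nat.mul_le_mul_left _ (by omega)
      exact this.trans h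
  rcases Nat.even_or_odd k with he | ho
  · obtain ⟨m, hm⟩ : ∃ m, k = 2 * m + 1 + 1 := by
      obtain ⟨m, hm⟩ := he
      exact ⟨m - 1, by omega⟩
    subst hm
    have hk2 : (2 * m + 1 + 1) * (2 * m + 1) ≤ r := by
      rcases h with h | h
      · exact absurd h.1 (by rw [Nat.not_odd_iff_even]; exact he)
      · simpa using h
    have hr20 : 20 ≤ r := by nlinarith
    have P := pm hr20
    set c := (r : ℝ) ^ 2 / ((r : ℝ) - 1) with hc
    have hr1 : (r : ℝ) - 1 ≠ 0 := by linarith [P.r1]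
    have hr0 : (r : ℝ) ≠ 0 := by linarith [P.rpos]
    have hD : 4 ≤ 2 * c ^ m := by
      have h1 : c ^ 1 ≤ c ^ m := pow_le_pow_right₀ (by linarith [P.c4]) (by omega)
      rw [pow_one] at h1
      linarith [P.c4]
    have hk3 : (2 * (m : ℝ) + 1) * (2 * m + 2) ≤ r := by
      have : (((2 * m + 1 + 1) * (2 * m + 1) : ℕ) : ℝ) ≤ r := by exact_mod_cast hk2
      push_cast at this
      linarith
    have hfin := finish' (by linarith [P.hr]) (2 * m + 1) (by omega) hD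
      (fun t ht x y hx hy hxy => even_pos P ht (by omega) hk3 hx hy hxy) n T
    have hu : u r (2 * m + 1 + 1) = 1 / (r * (2 * c ^ m)) := by
      rw [u, if_neg (by rw [Nat.not_odd_iff_even]; exact he), hc, div_pow]
      have e1 : (2 * m + 1 + 1 - 2) / 2 = m := by omega
      have e2 : 2 * m + 1 + 1 - 1 = 2 * m + 1 := by omega
      rw [e1, e2]
      have : ((r : ℝ) - 1) ^ m ≠ 0 := pow_ne_zero _ hr1
      field_simp
      ring
    rw [hu]
    exact hfin
  · obtain ⟨m, hm⟩ := ho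
    subst hm
    have hk2 := hodd ⟨m, rfl⟩
    have hr20 : 20 ≤ r := by omega
    have P := pm hr20
    set c := (r : ℝ) ^ 2 / ((r : ℝ) - 1) with hc
    have hr1 : (r : ℝ) - 1 ≠ 0 := by linarith [P.r1]
    have hr0 : (r : ℝ) ≠ 0 := by linarith [P.rpos]
    have hD : 4 ≤ c ^ m := by
      have h1 : c ^ 1 ≤ c ^ m := pow_le_pow_right₀ (by linarith [P.c4]) (by omega)
      rw [pow_one] at h1
      linarith [P.c4]
    have hk3 : 4 * (2 * (m : ℝ) + 1) ≤ r := by
      have : ((4 * (2 * m + 1) : ℕ) : ℝ) ≤ r := by exact_mod_cast hk2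
      push_cast at this
      linarith
    have hfin := finish' (by linarith [P.hr]) (2 * m) (by omega) hD
      (fun t ht x y hx hy hxy => odd_pos P ht (by omega) hk3 hx hy hxy) n T
    have hu : u r (2 * m + 1) = 1 / (r * c ^ m) := by
      rw [u, if_pos ⟨m, rfl⟩, hc, div_pow]
      have e1 : (2 * m + 1 - 1) / 2 = m := by omega
      rw [e1]
      have : ((r : ℝ) - 1) ^ m ≠ 0 := pow_ne_zero _ hr1
      field_simp
      ring
    rw [hu]
    exact hfin

end Pool.Agent.Helper32.SepL
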