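import Pool.Agent.Helper32.SepL.Basic

/-!
The two propagation lemmas for line properties.
-/

namespace Pool.Agent.Helper32.SepL

open Pool.Agent.Helper53.Sep Finset

lemma T_ineq_aux {R s z p q : ℝ} (hR : 18 ≤ R) (hz2 : 2 / R ≤ z) (hz : z ≤ 1 / 2)
    (hs : z + 2 / R ≤ s) (hs2 : s ≤ 2 - (z + 2 / R)) (hp : s - z ≤ p) (hpq : p ≤ q)
    (hsum : s ≤ p + q) : 8 / R + 4 / 3 * (1 / p + 1 / q) ≤ R * (2 - s) := by
  have hR0 : 0 < R := by linarith
  have h2R : 0 < 2 / R := by positivity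
  have hs0 : 0 < s := by linarith
  have hsz : 2 / R ≤ s - z := by linarith
  have hp0 : 0 < p := by linarith
  have hq0 : 0 < q := by linarith
  have hq : s / 2 ≤ q := by linarith
  have hp1 : 1 / p ≤ R / 2 := by
    rw [div_le_div_iff₀ hp0 (by norm_num)]
    have : 2 / R ≤ p := by linarith
    rw [div_le_iff₀ hR0] at this
    linarith
  have hq1 : 1 / q ≤ 2 / s := by
    rw [div_le_div_iff₀ hq0 hs0]; linarith
  have h8 : 8 / R ≤ 4 / 9 := by
    rw [div_le_div_iff₀ hR0 (by norm_num)]; linarith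
  rcases le_total s (1 / 2) with h1 | h1
  · have h4 : 4 / R ≤ s := by
      have : 4 / R = 2 / R + 2 / R := by ring
      linarith
    have h5 : 2 / s ≤ R / 2 := by
      rw [div_le_div_iff₀ hs0 (by norm_num)]
      rw [div_le_iff₀ hR0] at h4
      linarith
    nlinarith
  · rcases le_total s 1 with h2 | h2
    · have h5 : 2 / s ≤ 4 := by
        rw [div_le_iff₀ hs0]; linarith
      nlinarith
    · have h2R' : (2 : ℝ) - s ≥ 4 / R := by
        have : 4 / R = 2 / R + 2 / R := by ring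
        linarith
      have h6 : 4 ≤ R * (2 - s) := by
        have := mul_le_mul_of_nonneg_left h2R' hR0.le
        rw [mul_div_cancel₀ _ hR0.ne'] at this
        exact this
      rcases le_total s (3 / 2) with h3 | h3
      · have h5 : 2 / s ≤ 2 := by
          rw [div_le_iff₀ hs0]; linarith
        have h7 : 1 / p ≤ 2 := by
          rw [div_le_iff₀ hp0]; linarith
        nlinarith
      · have h5 : 2 / s ≤ 4 / 3 := by
          rw [div_le_iff₀ hs0]; linarith
        have h7 : 1 / p ≤ 1 := by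
          rw [div_le_iff₀ hp0]; linarith
        nlinarith

lemma T_ineq {R s z p q : ℝ} (hR : 18 ≤ R) (hz2 : 2 / R ≤ z) (hz : z ≤ 1 / 2)
    (hs : z + 2 / R ≤ s) (hs2 : s ≤ 2 - (z + 2 / R)) (hp : s - z ≤ p) (hq : s - z ≤ q)
    (hsum : s ≤ p + q) : 8 / R + 4 / 3 * (1 / p + 1 / q) ≤ R * (2 - s) := by
  rcases le_total p q with h | h
  · exact T_ineq_aux hR hz2 hz hs hs2 hp h hsum
  · have := T_ineq_aux hR hz2 hz hs hs2 hq h (by linarith)
    linarith

/-- passing from one relative slope to the full line property -/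
lemma line_of_points {r j : ℕ} {t τ Y1 Y2 z : ℝ} (hτ : 0 < τ) (hY1 : 0 < Y1) (hY2 : 0 < Y2)
    (hz1 : z ≤ 1) (h : ∀ s, z ≤ s → s ≤ 2 - z → W r j t τ (s * Y1) ((2 - s) * Y2)) :
    LineP r j t τ Y1 Y2 z := by
  intro x y hx hy hxy
  rcases le_total (x / Y1) (2 - z) with h1 | h1
  · have h2 : z ≤ x / Y1 := by rw [le_div_iff₀ hY1]; exact hx
    refine W.mono hτ (h _ h2 h1) ?_ ?_
    · rw [div_mul_cancel₀ _ hY1.ne']
    · have : 2 - x / Y1 ≤ y / Y2 := by linarith
      rw [le_div_iff₀ hY2] at this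
      exact this
  · refine W.mono hτ (h (2 - z) (by linarith) le_rfl) ?_ ?_
    · rw [le_div_iff₀ hY1] at h1; exact h1
    · have : 2 - (2 - z) = z := by ring
      rw [this]; exact hy

/-- The `T`-step. -/
theorem T_step {r j : ℕ} {t τ β w Q X1 X2 z : ℝ} (hτ : 0 < τ) (hr : 18 ≤ (r : ℝ))
    (hβ : β * ((r : ℝ) - 1) = r) (hw : 1 ≤ w)
    (hgen : ∀ x y, w ≤ x → w ≤ y → Q ≤ x * y → W r j t τ x y)
    (hX1 : 0 < X1) (hX2 : 0 < X2) (hwX1 : r * w ≤ 2 * X1) (hwX2 : r * w ≤ 4 * X2)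
    (hQ0 : 0 < Q) (hQ : Q ≤ 4 / 3 * (X1 * X2)) (hz2 : 2 / (r : ℝ) ≤ z) (hz : z ≤ 1 / 2)
    (hL : LineP r j t τ X1 X2 z) :
    LineP r (j + 1) t (τ + 1) (β * X1) (r * X2) (z + 2 / r) := by
  have hr0 : (0 : ℝ) < r := by linarith
  have hr1 : (0 : ℝ) < (r : ℝ) - 1 := by linarith
  have hβ1 : 1 ≤ β := by
    by_contra h
    push Not at h
    nlinarith
  have hβ0 : 0 < β := by linarith
  have h2r : 0 < 2 / (r : ℝ) := by positivity
  have h2r' : 2 / (r : ℝ) ≤ 1 / 4 := by
    rw [div_le_div_iff₀ hr0 (by norm_num)]; linarith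
  refine line_of_points (by linarith) (by positivity) (by positivity) (by linarith) ?_
  intro s hs1 hs2
  have hs0 : 0 < s := by linarith
  have hx : s * (β * X1) = (β * s) * X1 := by ring
  have hy : (2 - s) * (r * X2) = X2 * (2 * r - (r - 1) * (β * s)) := by
    have : ((r : ℝ) - 1) * (β * s) = r * s := by
      calc ((r : ℝ) - 1) * (β * s) = (β * (r - 1)) * s := by ring
        _ = r * s := by rw [hβ]
    rw [this]; ring
  rw [hx, hy]
  have hA0 : s ≤ β * s := by nlinarith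
  have hAz : 2 / (r : ℝ) ≤ β * s - z := by linarith
  have hP0w : w ≤ (β * s - z) * X1 := by
    have h1 : 2 / (r : ℝ) * X1 ≤ (β * s - z) * X1 := mul_le_mul_of_nonneg_right hAz hX1.le
    have h2 : w ≤ 2 / (r : ℝ) * X1 := by
      rw [div_mul_eq_mul_div, le_div_iff₀ hr0]; linarith
    linarith
  have hw0 : 0 < w := by linarith
  have hyv : X2 * (2 * r - (r - 1) * (β * s)) = X2 * (r * (2 - s)) := by
    rw [← hy]; ring
  have h2s : 4 / (r : ℝ) ≤ 2 - s := by
    have : 4 / (r : ℝ) = 2 / r + 2 / r := by ring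
    linarith
  have h4 : 4 ≤ (r : ℝ) * (2 - s) := by
    have := mul_le_mul_of_nonneg_left h2s hr0.le
    rw [mul_div_cancel₀ _ hr0.ne'] at this
    exact this
  refine point_step hτ ?_ ?_ ((β * s - z) * X1) ?_ ?_
  · have h1 : w ≤ (β * s) * X1 := by nlinarith
    linarith
  · rw [hyv]
    nlinarith
  · intro a b p q ha hb hp0 hap hq0 hqb hf
    have hp00 : 0 < p := by linarith
    have hap0 : 0 < a - p := by linarith
    have hval : ∀ u v, w ≤ u → ¬ W r j t τ u v → v < w + Q / u := by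
      intro u v hu hn
      by_contra hcon
      push Not at hcon
      have hu0 : 0 < u := by linarith
      apply hn
      have hQu : 0 ≤ Q / u := by positivity
      refine hgen u v hu (by linarith) ?_
      have : Q / u ≤ v := by linarith
      rw [div_le_iff₀ hu0] at this
      linarith
    have h1 := hval p (b - q) (by linarith) hf.1
    have h2 := hval (a - p) q (by linarith) hf.2
    obtain ⟨π, hπ⟩ : ∃ π, π = p / X1 := ⟨_, rfl⟩
    obtain ⟨ρ, hρ⟩ : ∃ ρ, ρ = (a - p) / X1 := ⟨_, rfl⟩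
    have hπ1 : β * s - z ≤ π := by rw [hπ, le_div_iff₀ hX1]; exact hp0
    have hρ1 : β * s - z ≤ ρ := by rw [hρ, le_div_iff₀ hX1]; exact hap
    have hπρ : s ≤ π + ρ := by
      rw [hπ, hρ, ← add_div, le_div_iff₀ hX1]
      have : p + (a - p) = a := by ring
      rw [this]
      nlinarith
    have hπ0 : 0 < π := by linarith
    have hρ0 : 0 < ρ := by linarith
    have hineq := T_ineq hr hz2 hz hs1 hs2 (by linarith) (by linarith) hπρ
    have hpX : p = π * X1 := by rw [hπ]; field_simp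
    have hapX : a - p = ρ * X1 := by rw [hρ]; field_simp
    have hq1 : Q / p ≤ X2 * (4 / 3 * (1 / π)) := by
      rw [hpX, div_le_iff₀ (by positivity)]
      calc Q ≤ 4 / 3 * (X1 * X2) := hQ
        _ = X2 * (4 / 3 * (1 / π)) * (π * X1) := by field_simp
    have hq2 : Q / (a - p) ≤ X2 * (4 / 3 * (1 / ρ)) := by
      rw [hapX, div_le_iff₀ (by positivity)]
      calc Q ≤ 4 / 3 * (X1 * X2) := hQ
        _ = X2 * (4 / 3 * (1 / ρ)) * (ρ * X1) := by field_simp
    have hw2 : 2 * w ≤ X2 * (8 / r) := by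
      rw [mul_div_assoc', le_div_iff₀ hr0]; linarith
    have h5 : X2 * (8 / (r : ℝ) + 4 / 3 * (1 / π + 1 / ρ)) ≤ X2 * (r * (2 - s)) :=
      mul_le_mul_of_nonneg_left hineq hX2.le
    rw [hyv] at hb
    have h6 : X2 * (8 / (r : ℝ) + 4 / 3 * (1 / π + 1 / ρ)) =
        X2 * (8 / r) + X2 * (4 / 3 * (1 / π)) + X2 * (4 / 3 * (1 / ρ)) := by ring
    linarith
  · intro ι I P S a b ha hb hcard hPn hSn hsP hsS hL' hF
    exact line_star hX1 hX2 hL (by linarith) (by positivity)
      (by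
        have h1 : ((r : ℝ) - 1) * (β * s) = r * s := by
          calc ((r : ℝ) - 1) * (β * s) = (β * (r - 1)) * s := by ring
            _ = r * s := by rw [hβ]
        have h3 : (r : ℝ) * s ≤ (r - 1) * (2 - z) := by
          have h5 : (r : ℝ) * (2 / r) = 2 := mul_div_cancel₀ _ hr0.ne'
          nlinarith
        have h6 : ((r : ℝ) - 1) * (β * s) ≤ (r - 1) * (2 - z) := by rw [h1]; exact h3
        exact le_of_mul_le_mul_left h6 hr1) le_rfl I P S ha hb hcard (by linarith) hPn hsP hsS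
      hL' hF

/-- The `V`-step: `V = (X1, X2)` at level `j` has the line property `1 - o`, the position
`(T1, T2)` (half of the next `V`) has the line property `z`. -/
theorem V_step {r j : ℕ} {t τ β X1 X2 T1 T2 z o o' : ℝ} (hτ : 0 < τ) (hr : 4 ≤ (r : ℝ))
    (hβ : β * ((r : ℝ) - 1) = r) (hX1 : 0 < X1) (hX2 : 0 < X2) (hT1 : β * X1 = 2 * T1)
    (hT2 : r * X2 = 2 * T2) (hb1 : 1 ≤ T1) (hb2 : 1 ≤ T2) (hz0 : 0 ≤ z) (ho0 : 0 ≤ o')
    (ho'2 : o' ≤ 1 / 2) (hzo : z ≤ 1 - o')
    (h1 : β * (1 + o') ≤ 1 + o) (h2 : 1 - o ≤ β * (1 - o' - z / 2)) (ho1 : o ≤ 1)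
    (hT : LineP r j t τ T1 T2 z) (hV : LineP r j t τ X1 X2 (1 - o)) :
    LineP r (j + 1) t (τ + 1) (β * X1) (r * X2) (1 - o') := by
  have hr0 : (0 : ℝ) < r := by linarith
  have hr1 : (0 : ℝ) < (r : ℝ) - 1 := by linarith
  have hβ1 : 1 ≤ β := by
    by_contra h
    push Not at h
    nlinarith
  have hβ0 : 0 < β := by linarith
  have hT10 : 0 < T1 := by linarith
  have hT20 : 0 < T2 := by linarith
  refine line_of_points (by linarith) (by positivity) (by positivity) (by linarith) ?_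
  intro s hs1 hs2
  have hs0 : 0 < s := by linarith
  have hx : s * (β * X1) = (β * s) * X1 := by ring
  have hy : (2 - s) * (r * X2) = X2 * (2 * r - (r - 1) * (β * s)) := by
    have : ((r : ℝ) - 1) * (β * s) = r * s := by
      calc ((r : ℝ) - 1) * (β * s) = (β * (r - 1)) * s := by ring
        _ = r * s := by rw [hβ]
    rw [this]; ring
  have hxT : (β * s) * X1 = 2 * s * T1 := by
    calc (β * s) * X1 = s * (β * X1) := by ring
      _ = 2 * s * T1 := by rw [hT1]; ring
  have hyT : X2 * (2 * r - (r - 1) * (β * s)) = 2 * (2 - s) * T2 := by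
    rw [← hy, hT2]; ring
  rw [hx, hy]
  set m := max (s - 1) 0 with hm
  have hm0 : 0 ≤ m := le_max_right _ _
  have hm1 : s - 1 ≤ m := le_max_left _ _
  have hsm : 1 - o' ≤ s - m := by
    rcases le_total (s - 1) 0 with h | h
    · rw [hm, max_eq_right h]; linarith
    · rw [hm, max_eq_left h]; linarith
  refine point_step hτ ?_ ?_ ((z + 2 * m) * T1) ?_ ?_
  · rw [hxT]; nlinarith
  · rw [hyT]; nlinarith
  · intro a b p q ha hb hp0 hap hq0 hqb hf
    rw [hxT] at ha
    rw [hyT] at hb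
    have hval : ∀ u v, z * T1 ≤ u → ¬ W r j t τ u v → v < T2 * max z (2 - u / T1) := by
      intro u v hu hn
      by_contra hcon
      push Not at hcon
      apply hn
      have g1 : z ≤ max z (2 - u / T1) := le_max_left _ _
      have g2 : 2 - u / T1 ≤ max z (2 - u / T1) := le_max_right _ _
      apply hT u v hu
      · nlinarith
      · have : 2 - u / T1 ≤ v / T2 := by
          rw [le_div_iff₀ hT20]; nlinarith
        linarith
    have hzm : z * T1 ≤ (z + 2 * m) * T1 := by nlinarith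
    have g1 := hval p (b - q) (by linarith) hf.1
    have g2 := hval (a - p) q (by linarith) hf.2
    obtain ⟨π, hπ⟩ : ∃ π, π = p / T1 := ⟨_, rfl⟩
    obtain ⟨ρ, hρ⟩ : ∃ ρ, ρ = (a - p) / T1 := ⟨_, rfl⟩
    rw [← hπ] at g1
    rw [← hρ] at g2
    have hπ1 : z + 2 * m ≤ π := by rw [hπ, le_div_iff₀ hT10]; exact hp0
    have hρ1 : z + 2 * m ≤ ρ := by rw [hρ, le_div_iff₀ hT10]; exact hap
    have hπρ : 2 * s ≤ π + ρ := by
      rw [hπ, hρ, ← add_div, le_div_iff₀ hT10]
      linarith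
    have hmax : max z (2 - π) + max z (2 - ρ) ≤ 2 * (2 - s) := by
      rcases max_cases z (2 - π) with ⟨e1, _⟩ | ⟨e1, _⟩ <;>
        rcases max_cases z (2 - ρ) with ⟨e2, _⟩ | ⟨e2, _⟩ <;> rw [e1, e2] <;> linarith
    have hfin := mul_le_mul_of_nonneg_left hmax hT20.le
    nlinarith
  · intro ι I P S a b ha hb hcard hPn hSn hsP hsS hL' hF
    refine line_star hX1 hX2 hV (by linarith) (by positivity) ?_ ?_ I P S ha hb hcard
      (by linarith) hPn hsP hsS hL' hF
    · nlinarith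
    · have e1 : (z + 2 * m) * T1 = β * (z / 2 + m) * X1 := by
        calc (z + 2 * m) * T1 = (z / 2 + m) * (2 * T1) := by ring
          _ = β * (z / 2 + m) * X1 := by rw [← hT1]; ring
      rw [e1]
      apply mul_le_mul_of_nonneg_right _ hX1.le
      have e2 : β * (1 - o' - z / 2) ≤ β * (s - m - z / 2) :=
        mul_le_mul_of_nonneg_left (by linarith) hβ0.le
      have e3 : β * (s - m - z / 2) = β * s - β * (z / 2 + m) := by ring
      linarith

end Pool.Agent.Helper32.SepL
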