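import Pool.Agent.Helper32.SepL.Chain

/-!
The chain of the points `V = 2 T`.
-/

namespace Pool.Agent.Helper32.SepL

open Pool.Agent.Helper53.Sep Finset

/-- window of `V` at level `j` -/
noncomputable def ow (r : ℕ) (J j : ℝ) : ℝ := (J * (J + 1) - j * (j - 1)) / (2 * r)

lemma ow_step {r : ℕ} (hr : (0 : ℝ) < r) (J j : ℝ) : ow r J j - ow r J (j + 1) = j / r := by
  rw [ow, ow]; field_simp; ring

lemma V_cond {r : ℕ} {c β : ℝ} (P : Pm r c β) {J j : ℝ} (hJ : J * (J + 1) ≤ r) (h2 : 2 ≤ j)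
    (hj : j + 1 ≤ J) :
    0 ≤ ow r J (j + 1) ∧ ow r J (j + 1) ≤ 1 / 2 ∧ 2 * j / r ≤ 1 - ow r J (j + 1) ∧
    β * (1 + ow r J (j + 1)) ≤ 1 + ow r J j ∧
    1 - ow r J j ≤ β * (1 - ow r J (j + 1) - 2 * j / r / 2) ∧ ow r J j ≤ 1 := by
  have hr := P.hr
  have h0 := P.rpos
  have h1 := P.r1
  have hst := ow_step h0 J j
  obtain ⟨o', ho'⟩ : ∃ o', o' = ow r J (j + 1) := ⟨_, rfl⟩
  obtain ⟨o, ho⟩ : ∃ o, o = ow r J j := ⟨_, rfl⟩
  rw [← ho', ← ho] at hst ⊢
  have hβ1 : 1 ≤ β := by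
    by_contra h
    push Not at h
    nlinarith [P.hβ]
  have a1 : 0 ≤ o' := by
    rw [ho', ow]
    apply div_nonneg _ (by positivity)
    nlinarith
  have a2 : o ≤ 1 / 2 := by
    rw [ho, ow, div_le_div_iff₀ (by positivity) (by norm_num)]
    nlinarith
  have a3 : 0 ≤ j / r := by
    apply div_nonneg _ h0.le
    linarith
  have a4 : j / r ≤ 1 / 4 := by
    rw [div_le_div_iff₀ h0 (by norm_num)]
    nlinarith
  have a5 : 2 * j / r = 2 * (j / r) := by ring
  refine ⟨a1, by linarith, by rw [a5]; linarith, ?_, ?_, by linarith⟩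
  · have e1 : β * (1 + o') * (r - 1) ≤ (1 + o) * (r - 1) := by
      have e2 : β * (1 + o') * (r - 1) = r * (1 + o') := by
        calc β * (1 + o') * (r - 1) = (β * (r - 1)) * (1 + o') := by ring
          _ = r * (1 + o') := by rw [P.hβ]
      rw [e2]
      have e3 : o = o' + j / r := by linarith
      have e4 : (j / r) * (r - 1) = j - j / r := by field_simp
      rw [e3]
      nlinarith
    exact le_of_mul_le_mul_right e1 h1
  · rw [a5]
    have e3 : o = o' + j / r := by linarith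
    rw [e3]
    have e4 : 0 ≤ 1 - o' - 2 * (j / r) / 2 := by linarith
    nlinarith

lemma W_two {r : ℕ} {c β : ℝ} (P : Pm r c β) {t : ℝ} (ht : 0 < t) {x y : ℝ}
    (h : ((r : ℝ) + 2 ≤ x ∧ 2 * (r : ℝ) ≤ y) ∨ (2 * (r : ℝ) ≤ x ∧ (r : ℝ) + 2 ≤ y)) :
    W r 2 t (t + 2) x y := by
  have hr := P.hr
  have hr3 : 3 ≤ r := by
    have : (3 : ℝ) ≤ r := by linarith
    exact_mod_cast this
  have w1 := wins1 (by omega : 2 ≤ r) ht (wins0 r ht)
  have w2 := wins2 hr3 P.hc (by linarith) w1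
  have e : t + 1 + 1 = t + 2 := by ring
  rw [e] at w2
  apply w2 x y
  unfold C2
  rcases h with h | h
  · exact Or.inr (Or.inr (Or.inr (Or.inr (Or.inl h))))
  · exact Or.inr (Or.inr (Or.inr (Or.inr (Or.inr h))))

/-- The `V` chain. -/
theorem V_chain {r : ℕ} {c β : ℝ} (P : Pm r c β) {t : ℝ} (ht : 0 < t) {J : ℝ}
    (hJ : J * (J + 1) ≤ r) (i : ℕ) :
    ((2 * (i : ℝ) + 2 ≤ J) →
      LineP r (2 * i + 2) t (t + (2 * i + 2 : ℕ)) (2 * (r * c ^ i)) (2 * (r * c ^ i))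
        (1 - ow r J (2 * i + 2))) ∧
    ((2 * (i : ℝ) + 3 ≤ J) →
      LineP r (2 * i + 3) t (t + (2 * i + 3 : ℕ)) (2 * c ^ (i + 1)) (2 * ((r - 1) * c ^ (i + 1)))
        (1 - ow r J (2 * i + 3))) := by
  have hr := P.hr
  have h0 := P.rpos
  have hr1 := P.r1
  have stepAB : ∀ i : ℕ, (2 * (i : ℝ) + 3 ≤ J) →
      LineP r (2 * i + 2) t (t + (2 * i + 2 : ℕ)) (2 * (r * c ^ i)) (2 * (r * c ^ i))
        (1 - ow r J (2 * i + 2)) →
      LineP r (2 * i + 3) t (t + (2 * i + 3 : ℕ)) (2 * c ^ (i + 1)) (2 * ((r - 1) * c ^ (i + 1)))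
        (1 - ow r J (2 * i + 3)) := by
    intro i hi hA
    have hi0 : (0 : ℝ) ≤ i := by positivity
    have hci0 := P.cpos i
    have hci1 := P.one_le_cpow (i + 1)
    have hτ : 0 < t + ((2 * i + 2 : ℕ) : ℝ) := by positivity
    obtain ⟨d1, d2, d3, d4, d5, d6⟩ := V_cond P hJ (j := 2 * i + 2) (by linarith) (by linarith)
    have hT := (T_chain P ht i).2 (by nlinarith)
    have e1 : β * (2 * (r * c ^ i)) = 2 * c ^ (i + 1) := by
      rw [pow_succ]; nth_rewrite 3 [P.c_eq]; ring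
    have e2 : (r : ℝ) * (2 * (r * c ^ i)) = 2 * ((r - 1) * c ^ (i + 1)) := by
      calc (r : ℝ) * (2 * (r * c ^ i)) = 2 * (r ^ 2 * c ^ i) := by ring
        _ = 2 * ((c * (r - 1)) * c ^ i) := by rw [P.hc]
        _ = 2 * ((r - 1) * c ^ (i + 1)) := by ring
    have e3 : (2 * (i : ℝ) + 2 + 1) = 2 * i + 3 := by ring
    rw [e3] at d1 d2 d3 d4 d5
    have key := V_step hτ (by linarith) P.hβ (by positivity) (by positivity) e1 e2 hci1
      (by nlinarith) (by positivity) d1 d2 d3 d4 d5 d6 hT hA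
    have e4 : t + ((2 * i + 2 : ℕ) : ℝ) + 1 = t + ((2 * i + 3 : ℕ) : ℝ) := by push_cast; ring
    rw [e1, e2, e4] at key
    exact key
  have stepBA : ∀ i : ℕ, (2 * ((i + 1 : ℕ) : ℝ) + 2 ≤ J) →
      LineP r (2 * i + 3) t (t + (2 * i + 3 : ℕ)) (2 * c ^ (i + 1)) (2 * ((r - 1) * c ^ (i + 1)))
        (1 - ow r J (2 * i + 3)) →
      LineP r (2 * (i + 1) + 2) t (t + (2 * (i + 1) + 2 : ℕ)) (2 * (r * c ^ (i + 1)))
        (2 * (r * c ^ (i + 1))) (1 - ow r J (2 * ((i + 1 : ℕ) : ℝ) + 2)) := by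
    intro i hi hB
    push_cast at hi
    have hi0 : (0 : ℝ) ≤ i := by positivity
    have hci1 := P.one_le_cpow (i + 1)
    have hτ : 0 < t + ((2 * i + 3 : ℕ) : ℝ) := by positivity
    obtain ⟨d1, d2, d3, d4, d5, d6⟩ := V_cond P hJ (j := 2 * i + 3) (by linarith) (by linarith)
    have hT := (T_chain P ht (i + 1)).1 (by push_cast; nlinarith)
    have e1 : β * (2 * ((r - 1) * c ^ (i + 1))) = 2 * (r * c ^ (i + 1)) := by
      calc β * (2 * ((r - 1) * c ^ (i + 1))) = 2 * ((β * (r - 1)) * c ^ (i + 1)) := by ring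
        _ = 2 * (r * c ^ (i + 1)) := by rw [P.hβ]
    have e2 : (r : ℝ) * (2 * c ^ (i + 1)) = 2 * (r * c ^ (i + 1)) := by ring
    have e3 : (2 * (i : ℝ) + 3 + 1) = 2 * ((i + 1 : ℕ) : ℝ) + 2 := by push_cast; ring
    rw [e3] at d1 d2 d3 d4 d5
    have e5 : 2 * (2 * (i : ℝ) + 3) / r = 2 * (2 * ((i + 1 : ℕ) : ℝ) + 1) / r := by
      push_cast; ring
    rw [e5] at d3 d5
    have hT' : LineP r (2 * i + 3) t (t + (2 * i + 3 : ℕ)) (r * c ^ (i + 1)) (r * c ^ (i + 1))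
        (2 * (2 * ((i + 1 : ℕ) : ℝ) + 1) / r) := by
      have : 2 * (i + 1) + 1 = 2 * i + 3 := by ring
      rw [this] at hT
      exact hT
    have key := V_step hτ (by linarith) P.hβ (by positivity) (by positivity) e1 e2
      (by nlinarith) (by nlinarith) (by positivity) d1 d2 d3 d4 d5 d6 hT' hB.swap
    have e4 : t + ((2 * i + 3 : ℕ) : ℝ) + 1 = t + ((2 * (i + 1) + 2 : ℕ) : ℝ) := by
      push_cast; ring
    rw [e1, e2, e4] at key
    exact key
  induction i with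
  | zero =>
    have hA : LineP r (2 * 0 + 2) t (t + (2 * 0 + 2 : ℕ)) (2 * (r * c ^ 0)) (2 * (r * c ^ 0))
        (1 - ow r J (2 * ((0 : ℕ) : ℝ) + 2)) := by
      intro x y hx hy hxy
      have hJ2 : ow r J (2 * ((0 : ℕ) : ℝ) + 2) ≤ 1 / 2 - 1 / r := by
        rw [ow]
        have : (1 : ℝ) / 2 - 1 / r = (r - 2) / (2 * r) := by field_simp
        rw [this, div_le_div_iff_of_pos_right (by positivity)]
        push_cast
        linarith
      have hrr : (1 - (1 / 2 - 1 / (r : ℝ))) * (2 * (r * c ^ 0)) = r + 2 := by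
        rw [pow_zero]; field_simp; ring
      have hx' : (r : ℝ) + 2 ≤ x := by
        rw [← hrr]
        refine le_trans ?_ hx
        apply mul_le_mul_of_nonneg_right _ (by positivity)
        linarith
      have hy' : (r : ℝ) + 2 ≤ y := by
        rw [← hrr]
        refine le_trans ?_ hy
        apply mul_le_mul_of_nonneg_right _ (by positivity)
        linarith
      rw [pow_zero, mul_one, ← add_div, le_div_iff₀ (by positivity)] at hxy
      have := W_two P ht (x := x) (y := y) (by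
        rcases le_or_gt (2 * (r : ℝ)) y with h | h
        · exact Or.inl ⟨hx', h⟩
        · exact Or.inr ⟨by linarith, hy'⟩)
      simpa using this
    exact ⟨fun _ => hA, fun h => stepAB 0 h hA⟩
  | succ i ih =>
    have hA : (2 * ((i + 1 : ℕ) : ℝ) + 2 ≤ J) →
      LineP r (2 * (i + 1) + 2) t (t + (2 * (i + 1) + 2 : ℕ)) (2 * (r * c ^ (i + 1)))
        (2 * (r * c ^ (i + 1))) (1 - ow r J (2 * ((i + 1 : ℕ) : ℝ) + 2)) := by
      intro h
      exact stepBA i h (ih.2 (by push_cast at h; linarith))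
    exact ⟨hA, fun h => stepAB (i + 1) h (hA (by linarith))⟩

end Pool.Agent.Helper32.SepL
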